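import Pool.Agent.H30.SY.Stm

/-!
# CD of the project SY: concentration about the time constant gives symmetry and doubling
-/

set_option autoImplicit false

open MeasureTheory ProbabilityTheory Finset Filter
open scoped Topology Pointwise

namespace Pool.Agent.H85.SY

open Q70.Fp Pool.Agent.H30.SY

theorem of_small {P : ℤ × ℤ → ℝ} (hP : ∀ v, P v ≤ 1) {s C : ℝ} (hC : 0 ≤ C) {n0 : ℕ}
    (h : ∀ v, v ≠ 0 → n0 ≤ dd 0 v → P v ≤ C * (dd 0 v : ℝ) ^ s) :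
    ∃ C' : ℝ, ∀ v, v ≠ 0 → P v ≤ C' * (dd 0 v : ℝ) ^ s := by
  refine ⟨C + ((n0 : ℝ) + 1) ^ |s|, fun v hv => ?_⟩
  have h1 : 0 < dd 0 v := dd_pos hv
  have h1' : (1 : ℝ) ≤ dd 0 v := by exact_mod_cast h1
  have h0' : (0 : ℝ) < dd 0 v := by linarith
  have h2 : 0 < (dd 0 v : ℝ) ^ s := by positivity
  rw [add_mul]
  by_cases h3 : n0 ≤ dd 0 v
  · have h4 := h v hv h3
    have h5 : 0 ≤ ((n0 : ℝ) + 1) ^ |s| * (dd 0 v : ℝ) ^ s := by positivity
    linarith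
  · have h4 : (dd 0 v : ℝ) ≤ (n0 : ℝ) + 1 := by
      have : dd 0 v ≤ n0 + 1 := by omega
      exact_mod_cast this
    have h5 : 1 ≤ ((n0 : ℝ) + 1) ^ |s| * (dd 0 v : ℝ) ^ s := by
      calc (1 : ℝ) = (dd 0 v : ℝ) ^ |s| * (dd 0 v : ℝ) ^ (-|s|) := by
            rw [← Real.rpow_add h0', add_neg_cancel, Real.rpow_zero]
        _ ≤ ((n0 : ℝ) + 1) ^ |s| * (dd 0 v : ℝ) ^ s := by
            apply mul_le_mul
            · exact Real.rpow_le_rpow h0'.le h4 (abs_nonneg s)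
            · exact Real.rpow_le_rpow_of_exponent_le h1' (neg_abs_le s)
            · positivity
            · positivity
    have h6 := hP v
    have h7 : 0 ≤ C * (dd 0 v : ℝ) ^ s := by positivity
    linarith

theorem t_CD (hEV : S_EVEN) : S_CD := by
  intro μ b hS hb hb1 hc
  have hneg : ∀ v : ℤ × ℤ, mz μ (-v) = mz μ v := by
    intro v
    have h := hEV μ hS ((v.1 : ℝ), (v.2 : ℝ))
    unfold mz
    rw [← h]
    congr 1
    simp
  have hdbl : ∀ v : ℤ × ℤ, mz μ (v + v) = 2 * mz μ v := by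
    intro v
    have h := mz_smul hS 2 v
    have e : (((2 : ℕ) : ℤ) • v) = v + v := by
      rw [Nat.cast_ofNat, two_smul]
    rw [e] at h
    rw [h]
    norm_num
  have ddn : ∀ v : ℤ × ℤ, dd 0 (-v) = dd 0 v := by
    intro v
    unfold dd
    simp
  have dd2 : ∀ v : ℤ × ℤ, dd 0 (v + v) = 2 * dd 0 v := by
    intro v
    unfold dd
    simp only [Prod.fst_add, Prod.snd_add, Prod.fst_zero, Prod.snd_zero, sub_zero]
    omega
  have key : ∀ ζ : ℝ, 0 < ζ → ∃ n0 : ℕ, ∀ n : ℕ, n0 ≤ n →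
      (2 : ℝ) ^ (b + ζ / 2) + 2 ≤ (n : ℝ) ^ (ζ / 2) := by
    intro ζ hζ
    have h1 := (tendsto_rpow_atTop (half_pos hζ)).comp tendsto_natCast_atTop_atTop
    obtain ⟨n0, h0⟩ := eventually_atTop.1
      (h1.eventually_ge_atTop ((2 : ℝ) ^ (b + ζ / 2) + 2))
    exact ⟨n0, fun n hn => h0 n hn⟩
  have hspl : ∀ (ζ : ℝ) (v : ℤ × ℤ), v ≠ 0 →
      (dd 0 v : ℝ) ^ (b + ζ) = (dd 0 v : ℝ) ^ (ζ / 2) * (dd 0 v : ℝ) ^ (b + ζ / 2) := by
    intro ζ v hv
    have h1 : 0 < dd 0 v := dd_pos hv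
    have h0' : (0 : ℝ) < dd 0 v := by exact_mod_cast h1
    rw [← Real.rpow_add h0']
    congr 1
    ring
  have hexp : ∀ (ζ : ℝ), 0 < ζ → ∀ (v : ℤ × ℤ), v ≠ 0 →
      (dd 0 v : ℝ) ^ (-(2 * (1 - b)) + ζ / 2) ≤ (dd 0 v : ℝ) ^ (-(2 * (1 - b)) + ζ) := by
    intro ζ hζ v hv
    have h1 : 0 < dd 0 v := dd_pos hv
    have h1' : (1 : ℝ) ≤ dd 0 v := by exact_mod_cast h1
    exact Real.rpow_le_rpow_of_exponent_le h1' (by linarith)
  constructor
  · intro ζ hζ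
    obtain ⟨C, hC⟩ := hc (ζ / 2) (half_pos hζ)
    obtain ⟨n0, hn0⟩ := key ζ hζ
    refine of_small (P := fun v => nu.real {w : Ed → ℝ | (dd 0 v : ℝ) ^ (b + ζ) <
      |TT (pw w) 0 v - TT (pw w) 0 (-v)|}) (fun v => measureReal_le_one) (C := 2 * |C|)
      (by positivity) (n0 := n0) (fun v hv hv0 => ?_)
    have h1 : 0 < dd 0 v := dd_pos hv
    have h0' : (0 : ℝ) < dd 0 v := by exact_mod_cast h1
    have hbig := hn0 _ hv0
    have h2 : 2 * (dd 0 v : ℝ) ^ (b + ζ / 2) ≤ (dd 0 v : ℝ) ^ (b + ζ) := by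
      rw [hspl ζ v hv]
      apply mul_le_mul_of_nonneg_right _ (by positivity)
      have : (0 : ℝ) < 2 ^ (b + ζ / 2) := by positivity
      linarith
    have hsub : {w : Ed → ℝ | (dd 0 v : ℝ) ^ (b + ζ) < |TT (pw w) 0 v - TT (pw w) 0 (-v)|} ⊆
        {w : Ed → ℝ | (dd 0 v : ℝ) ^ (b + ζ / 2) < |TT (pw w) 0 v - mz μ v|} ∪
        {w : Ed → ℝ | (dd 0 (-v) : ℝ) ^ (b + ζ / 2) < |TT (pw w) 0 (-v) - mz μ (-v)|} := by
      intro w hw
      rw [Set.mem_ofPred_eq] at hw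
      by_contra h3
      rw [Set.mem_union, not_or, Set.mem_ofPred_eq, Set.mem_ofPred_eq, not_lt, not_lt, ddn,
        hneg] at h3
      have h4 : |TT (pw w) 0 v - TT (pw w) 0 (-v)| ≤
          |TT (pw w) 0 v - mz μ v| + |TT (pw w) 0 (-v) - mz μ v| := by
        have e : TT (pw w) 0 v - TT (pw w) 0 (-v) =
            (TT (pw w) 0 v - mz μ v) - (TT (pw w) 0 (-v) - mz μ v) := by ring
        rw [e]
        exact abs_sub _ _
      linarith [h3.1, h3.2]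
    have h5 := (measureReal_mono hsub (measure_ne_top nu _)).trans (measureReal_union_le _ _)
    have h6 := hC v hv
    have h7 := hC (-v) (neg_ne_zero.2 hv)
    rw [ddn] at h7
    have h8 : C * (dd 0 v : ℝ) ^ (-(2 * (1 - b)) + ζ / 2) ≤
        |C| * (dd 0 v : ℝ) ^ (-(2 * (1 - b)) + ζ) :=
      mul_le_mul (le_abs_self C) (hexp ζ hζ v hv) (by positivity) (abs_nonneg C)
    rw [ddn] at h5
    linarith
  · intro ζ hζ
    obtain ⟨C, hC⟩ := hc (ζ / 2) (half_pos hζ)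
    obtain ⟨n0, hn0⟩ := key ζ hζ
    obtain ⟨s, hs⟩ : ∃ s : ℝ, s = -(2 * (1 - b)) + ζ / 2 := ⟨_, rfl⟩
    refine of_small (P := fun v => nu.real {w : Ed → ℝ | (dd 0 v : ℝ) ^ (b + ζ) <
      |TT (pw w) 0 (v + v) - 2 * TT (pw w) 0 v|}) (fun v => measureReal_le_one)
      (C := (2 ^ s + 1) * |C|) (by positivity) (n0 := n0) (fun v hv hv0 => ?_)
    have h1 : 0 < dd 0 v := dd_pos hv
    have h0' : (0 : ℝ) < dd 0 v := by exact_mod_cast h1
    have hvv : v + v ≠ 0 := by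
      intro h
      have h9 := dd2 v
      rw [h] at h9
      unfold dd at h9 h1
      simp at h9 h1
      omega
    have hbig := hn0 _ hv0
    have h2 : (2 * (dd 0 v : ℝ)) ^ (b + ζ / 2) + 2 * (dd 0 v : ℝ) ^ (b + ζ / 2) ≤
        (dd 0 v : ℝ) ^ (b + ζ) := by
      rw [hspl ζ v hv, Real.mul_rpow (by norm_num) h0'.le, ← add_mul]
      exact mul_le_mul_of_nonneg_right hbig (by positivity)
    have dd2' : ((dd 0 (v + v) : ℕ) : ℝ) = 2 * (dd 0 v : ℝ) := by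
      rw [dd2]
      push_cast
      rfl
    have hsub : {w : Ed → ℝ | (dd 0 v : ℝ) ^ (b + ζ) <
        |TT (pw w) 0 (v + v) - 2 * TT (pw w) 0 v|} ⊆
        {w : Ed → ℝ | (dd 0 (v + v) : ℝ) ^ (b + ζ / 2) < |TT (pw w) 0 (v + v) - mz μ (v + v)|} ∪
        {w : Ed → ℝ | (dd 0 v : ℝ) ^ (b + ζ / 2) < |TT (pw w) 0 v - mz μ v|} := by
      intro w hw
      rw [Set.mem_ofPred_eq] at hw
      by_contra h3
      rw [Set.mem_union, not_or, Set.mem_ofPred_eq, Set.mem_ofPred_eq, not_lt, not_lt, dd2',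
        hdbl] at h3
      have h4 : |TT (pw w) 0 (v + v) - 2 * TT (pw w) 0 v| ≤
          |TT (pw w) 0 (v + v) - 2 * mz μ v| + 2 * |TT (pw w) 0 v - mz μ v| := by
        have e : TT (pw w) 0 (v + v) - 2 * TT (pw w) 0 v =
            (TT (pw w) 0 (v + v) - 2 * mz μ v) - 2 * (TT (pw w) 0 v - mz μ v) := by ring
        rw [e]
        refine (abs_sub _ _).trans ?_
        rw [abs_mul, abs_of_pos (show (0 : ℝ) < 2 by norm_num)]
      linarith [h3.1, h3.2]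
    have h5 := (measureReal_mono hsub (measure_ne_top nu _)).trans (measureReal_union_le _ _)
    have h6 := hC v hv
    have h7 := hC (v + v) hvv
    have e0 : (2 * (dd 0 v : ℝ)) ^ s = 2 ^ s * (dd 0 v : ℝ) ^ s :=
      Real.mul_rpow (by norm_num) h0'.le
    rw [dd2', ← hs, e0] at h7
    rw [← hs] at h6
    have hex := hexp ζ hζ v hv
    rw [← hs] at hex
    have h8 : C * (dd 0 v : ℝ) ^ s ≤ |C| * (dd 0 v : ℝ) ^ (-(2 * (1 - b)) + ζ) :=
      mul_le_mul (le_abs_self C) hex (by positivity) (abs_nonneg C)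
    have h9 : C * ((2 : ℝ) ^ s * (dd 0 v : ℝ) ^ s) ≤
        (2 : ℝ) ^ s * (|C| * (dd 0 v : ℝ) ^ (-(2 * (1 - b)) + ζ)) := by
      calc C * ((2 : ℝ) ^ s * (dd 0 v : ℝ) ^ s) = (2 : ℝ) ^ s * (C * (dd 0 v : ℝ) ^ s) := by ring
        _ ≤ _ := mul_le_mul_of_nonneg_left h8 (by positivity)
    rw [dd2'] at h5
    have e : (2 ^ s + 1) * |C| * (dd 0 v : ℝ) ^ (-(2 * (1 - b)) + ζ) =
        (2 : ℝ) ^ s * (|C| * (dd 0 v : ℝ) ^ (-(2 * (1 - b)) + ζ)) +
          |C| * (dd 0 v : ℝ) ^ (-(2 * (1 - b)) + ζ) := by ring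
    rw [e]
    linarith

end Pool.Agent.H85.SY
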